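import Pool.Agent.Helper12.EK.Defs

/-!
# Automorphisms of colourings of pairs: fixing a set with bounded orbits
-/

set_option autoImplicit false
set_option linter.unusedSectionVars false

namespace Pool.Agent.Helper12.EK

open Pool.Agent.Helper6.MC

variable {M Col : Type} [Fintype M] [DecidableEq M] [DecidableEq Col] {c : M → M → Col}

lemma card_St_insert (A : Finset M) (b : M) : Nat.card {g : Equiv.Perm M // St c A g} ≤
    (Orb c A b).card * Nat.card {g : Equiv.Perm M // St c (insert b A) g} := by
  classical
  choose! h hh using fun (y : M) (hy : y ∈ Orb c A b) => mem_Orb.1 hy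
  have key : ∀ g : {g : Equiv.Perm M // St c A g}, g.1 b ∈ Orb c A b := fun g => mem_Orb.2 ⟨g.1, g.2, rfl⟩
  have hst : ∀ g : {g : Equiv.Perm M // St c A g}, St c (insert b A) (g.1.trans (h (g.1 b)).symm) := by
    intro g
    obtain ⟨h1, h2⟩ := hh _ (key g)
    have h3 : St c A (g.1.trans (h (g.1 b)).symm) := h1.inv.trans g.2
    refine ⟨h3.1, fun a ha => ?_⟩
    rcases Finset.mem_insert.1 ha with rfl | ha
    · show (h (g.1 a)).symm (g.1 a) = a
      rw [Equiv.symm_apply_eq, h2]
    · exact h3.2 a ha
  let f : {g : Equiv.Perm M // St c A g} → {y // y ∈ Orb c A b} × {g : Equiv.Perm M // St c (insert b A) g} :=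
    fun g => (⟨g.1 b, key g⟩, ⟨g.1.trans (h (g.1 b)).symm, hst g⟩)
  have hf : Function.Injective f := by
    intro g g' he
    have e1 : g.1 b = g'.1 b := congrArg (fun p => (p.1 : M)) he
    have e2 : g.1.trans (h (g.1 b)).symm = g'.1.trans (h (g'.1 b)).symm := congrArg (fun p => (p.2 : Equiv.Perm M)) he
    rw [e1] at e2
    refine Subtype.ext (Equiv.ext fun x => ?_)
    have e3 := congrArg (fun p : Equiv.Perm M => p x) e2
    exact (h (g'.1 b)).symm.injective e3
  have := Nat.card_le_card_of_injective f hf
  rwa [Nat.card_prod, Nat.card_eq_fintype_card (α := {y // y ∈ Orb c A b}), Fintype.card_coe] at this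

/-- K10: fixing a set with bounded orbits -/
theorem card_St_le {A B : Finset M} {s : ℕ} (hs : ∀ x, (Orb c A x).card ≤ s) :
    Nat.card {g : Equiv.Perm M // St c A g} ≤ s ^ B.card * Nat.card {g : Equiv.Perm M // St c (A ∪ B) g} := by
  classical
  induction B using Finset.induction_on with
  | empty => rw [Finset.card_empty, pow_zero, one_mul, Finset.union_empty]
  | insert b B hb ih =>
    refine ih.trans ?_
    rw [Finset.card_insert_of_notMem hb, pow_succ, mul_assoc]
    refine Nat.mul_le_mul_left _ ((card_St_insert (A ∪ B) b).trans ?_)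
    rw [Finset.union_insert]
    exact Nat.mul_le_mul_right _ ((Finset.card_le_card (Orb_mono Finset.subset_union_left b)).trans (hs b))

end Pool.Agent.Helper12.EK
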