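import Pool.Agent.Helper12.EK.Defs

/-!
# The doubling argument: orbits of points at distance `m` from the fixed set
-/

set_option autoImplicit false
set_option linter.unusedSectionVars false

namespace Pool.Agent.Helper12.EK

open Pool.Agent.Helper6.MC

variable {M Col : Type} [Fintype M] [DecidableEq M] [DecidableEq Col] {c : M → M → Col}

/-- a point on a geodesic -/
lemma geo14 {V : Type} {G : SimpleGraph V} {x a : V} (h : G.Reachable x a) {k : ℕ} (hk : k ≤ G.dist x a) :
    ∃ y, G.Reachable x y ∧ G.dist x y = k ∧ G.Reachable y a ∧ G.dist y a = G.dist x a - k := by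
  obtain ⟨p, hp⟩ := h.exists_walk_length_eq_dist
  have h1 := SimpleGraph.dist_le (p.take k)
  have h2 := SimpleGraph.dist_le (p.drop k)
  rw [SimpleGraph.Walk.take_length, hp] at h1
  rw [SimpleGraph.Walk.drop_length, hp] at h2
  have hr1 : G.Reachable x (p.getVert k) := ⟨p.take k⟩
  have hr2 : G.Reachable (p.getVert k) a := ⟨p.drop k⟩
  have h3 := hr1.dist_triangle_left a
  have h4 : k ⊓ G.dist x a = k := min_eq_left hk
  rw [h4] at h1
  refine ⟨p.getVert k, hr1, by omega, hr2, by omega⟩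

lemma self_Ball14 (E : M → M → Prop) (x : M) (ρ : ℕ) : x ∈ Ball E x ρ :=
  mem_Ball.2 ⟨SimpleGraph.Reachable.refl x, by rw [SimpleGraph.dist_self]; omega⟩

open Classical in
/-- growth of the balls -/
lemma Ball_succ14 (E : M → M → Prop) (hsymm : ∀ x y, E x y → E y x) {d : ℕ}
    (hd : ∀ x, (Finset.univ.filter (fun z => E x z)).card ≤ d) (x : M) (ρ : ℕ) :
    (Ball E x (ρ + 1)).card ≤ (Ball E x ρ).card * (d + 1) := by
  have hsub : Ball E x (ρ + 1) ⊆
      (Ball E x ρ).biUnion (fun y => insert y (Finset.univ.filter (fun z => E y z))) := by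
    intro z hz
    obtain ⟨hr, hz⟩ := mem_Ball.1 hz
    rw [Finset.mem_biUnion]
    by_cases h : (Gr E).dist x z ≤ ρ
    · exact ⟨z, mem_Ball.2 ⟨hr, h⟩, Finset.mem_insert_self _ _⟩
    · have he : (Gr E).dist x z = ρ + 1 := by omega
      obtain ⟨y, h1, h2, h3, h4⟩ := geo14 hr (k := ρ) (by omega)
      refine ⟨y, mem_Ball.2 ⟨h1, h2.le⟩, Finset.mem_insert_of_mem ?_⟩
      have h5 : (Gr E).dist y z = 1 := by omega
      have h6 : (Gr E).Adj y z := SimpleGraph.dist_eq_one_iff_adj.1 h5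
      rw [Finset.mem_filter]
      refine ⟨Finset.mem_univ _, ?_⟩
      have h7 := (SimpleGraph.fromRel_adj E y z).1 h6
      rcases h7.2 with h8 | h8
      · exact h8
      · exact hsymm _ _ h8
  calc (Ball E x (ρ + 1)).card ≤ _ := Finset.card_le_card hsub
    _ ≤ (Ball E x ρ).card * (d + 1) := by
        apply Finset.card_biUnion_le_card_mul
        intro y _
        refine (Finset.card_insert_le _ _).trans ?_
        have := hd y
        omega

/-- an automorphism maps walks to walks -/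
lemma map14 {E : M → M → Prop} {g : Equiv.Perm M} (hg : ∀ x z, E x z → E (g x) (g z)) {x y : M}
    (h : (Gr E).Reachable x y) :
    (Gr E).Reachable (g x) (g y) ∧ (Gr E).dist (g x) (g y) ≤ (Gr E).dist x y := by
  let f : Gr E →g Gr E := ⟨g, by
    intro a b hab
    have h1 := (SimpleGraph.fromRel_adj E a b).1 hab
    refine (SimpleGraph.fromRel_adj E (g a) (g b)).2 ⟨fun h => h1.1 (g.injective h), ?_⟩
    rcases h1.2 with h2 | h2
    · exact Or.inl (hg _ _ h2)
    · exact Or.inr (hg _ _ h2)⟩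
  obtain ⟨p, hp⟩ := h.exists_walk_length_eq_dist
  have h1 := SimpleGraph.dist_le (p.map f)
  rw [SimpleGraph.Walk.length_map, hp] at h1
  exact ⟨⟨p.map f⟩, h1⟩

/-- the distance to `A₂` is at most `m` -/
def Near14 (E : M → M → Prop) (A : Finset M) (x : M) (m : ℕ) : Prop :=
  ∃ a ∈ A, (Gr E).Reachable x a ∧ (Gr E).dist x a ≤ m

lemma Near14.map {E : M → M → Prop} {A : Finset M} {g : Equiv.Perm M} (hg : St c A g)
    (hE : ∀ x z, E x z → E (g x) (g z)) {x : M} {m : ℕ} (h : Near14 E A x m) : Near14 E A (g x) m := by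
  obtain ⟨a, ha, hr, hm⟩ := h
  obtain ⟨h1, h2⟩ := map14 hE hr
  rw [hg.2 a ha] at h1 h2
  exact ⟨a, ha, h1, h2.trans hm⟩

open Classical in
lemma Orb_le14 {A A₂ : Finset M} (hA : A ⊆ A₂) (E : M → M → Prop) (hsymm : ∀ x y, E x y → E y x) {d M₀ : ℕ}
    (hd : ∀ x, (Finset.univ.filter (fun z => E x z)).card ≤ d)
    (hinv : ∀ g, St c A g → ∀ x z, E x z → E (g x) (g z))
    (hball : ∀ z ρ, (∀ y ∈ Ball E z ρ, y ∉ A₂) → (Ball E z ρ).card ≤ M₀) :
    ∀ m : ℕ, 1 ≤ m → ∀ x : M, Near14 E A₂ x m → ¬ Near14 E A₂ x (m - 1) →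
      (Orb c A₂ x).card ≤ ((M₀ + 1) * (d + 1) ^ 2) ^ (Nat.log 2 m + 1) := by
  intro m
  induction m using Nat.strong_induction_on with
  | _ m IH =>
    intro hm x hx hx'
    obtain ⟨a, ha, hr, hle⟩ := hx
    have hdist : (Gr E).dist x a = m := by
      by_contra h
      exact hx' ⟨a, ha, hr, by omega⟩
    obtain ⟨y, h1, h2, h3, h4⟩ := geo14 hr (k := m - m / 2) (by omega)
    have h4' : (Gr E).dist y a = m / 2 := by omega
    -- the orbit of `x` is covered by the balls at the points of the orbit of `y`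
    have hcov : Orb c A₂ x ⊆ (Orb c A₂ y).biUnion (fun y' => Ball E y' (m - m / 2)) := by
      intro x' hx1
      obtain ⟨g, hg, rfl⟩ := mem_Orb.1 hx1
      rw [Finset.mem_biUnion]
      refine ⟨g y, mem_Orb.2 ⟨g, hg, rfl⟩, mem_Ball.2 ?_⟩
      obtain ⟨h5, h6⟩ := map14 (hinv g (hg.mono hA)) h1
      refine ⟨h5.symm, ?_⟩
      rw [SimpleGraph.dist_comm]
      omega
    rcases Nat.lt_or_ge m 2 with hm2 | hm2
    · have hm1 : m = 1 := by omega
      subst hm1
      have hya : y = a := by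
        have h5 : (Gr E).dist y a = 0 := by omega
        exact (h3.dist_eq_zero_iff).1 h5
      subst hya
      rw [Orb_of_mem ha, Finset.singleton_biUnion] at hcov
      have h5 := Finset.card_le_card hcov
      have h6 := Ball_succ14 E hsymm hd y 0
      have h7 : (Ball E y 0).card ≤ 1 := by
        rw [Finset.card_le_one]
        have h8 : ∀ z ∈ Ball E y 0, y = z := by
          intro z hz
          obtain ⟨hz1, hz2⟩ := mem_Ball.1 hz
          exact (hz1.dist_eq_zero_iff).1 (by omega)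
        intro z hz z' hz'
        rw [← h8 z hz, ← h8 z' hz']
      calc (Orb c A₂ x).card ≤ (Ball E y 1).card := h5
        _ ≤ (Ball E y 0).card * (d + 1) := h6
        _ ≤ 1 * (d + 1) := Nat.mul_le_mul_right _ h7
        _ ≤ ((M₀ + 1) * (d + 1) ^ 2) ^ (Nat.log 2 1 + 1) := by
            rw [Nat.log_one_right, zero_add, pow_one]
            have : d + 1 ≤ (d + 1) ^ 2 := Nat.le_self_pow (by norm_num) _
            nlinarith [Nat.zero_le (M₀ * (d + 1) ^ 2)]
    · have hlog : Nat.log 2 m = Nat.log 2 (m / 2) + 1 := Nat.log_of_one_lt_of_le (by norm_num) hm2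
      -- `y` is at distance exactly `m / 2`
      have hy' : ¬ Near14 E A₂ y (m / 2 - 1) := by
        rintro ⟨b, hb, hb1, hb2⟩
        refine hx' ⟨b, hb, h1.trans hb1, ?_⟩
        have := h1.dist_triangle_left b
        omega
      have hIH := IH (m / 2) (by omega) (by omega) y ⟨a, ha, h3, h4'.le⟩ hy'
      have hB : ∀ y' ∈ Orb c A₂ y, (Ball E y' (m - m / 2)).card ≤ M₀ * (d + 1) ^ 2 := by
        intro y' hy1
        obtain ⟨g, hg, rfl⟩ := mem_Orb.1 hy1
        have hn : ¬ Near14 E A₂ (g y) (m / 2 - 1) := by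
          intro h
          have h5 := h.map (c := c) hg.inv (hinv _ (hg.inv.mono hA))
          rw [Equiv.symm_apply_apply] at h5
          exact hy' h5
        have h5 : (Ball E (g y) (m / 2 - 1)).card ≤ M₀ := by
          apply hball
          intro z hz hz2
          obtain ⟨hz1, hz3⟩ := mem_Ball.1 hz
          exact hn ⟨z, hz2, hz1, hz3⟩
        have h6 := Ball_succ14 E hsymm hd (g y) (m / 2 - 1)
        have h7 := Ball_succ14 E hsymm hd (g y) (m / 2 - 1 + 1)
        have h8 : Ball E (g y) (m - m / 2) ⊆ Ball E (g y) (m / 2 - 1 + 1 + 1) := by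
          intro z hz
          obtain ⟨hz1, hz3⟩ := mem_Ball.1 hz
          exact mem_Ball.2 ⟨hz1, by omega⟩
        calc (Ball E (g y) (m - m / 2)).card ≤ _ := Finset.card_le_card h8
          _ ≤ (Ball E (g y) (m / 2 - 1 + 1)).card * (d + 1) := h7
          _ ≤ (Ball E (g y) (m / 2 - 1)).card * (d + 1) * (d + 1) := Nat.mul_le_mul_right _ h6
          _ ≤ M₀ * (d + 1) * (d + 1) := Nat.mul_le_mul_right _ (Nat.mul_le_mul_right _ h5)
          _ = M₀ * (d + 1) ^ 2 := by ring
      calc (Orb c A₂ x).card ≤ _ := Finset.card_le_card hcov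
        _ ≤ (Orb c A₂ y).card * (M₀ * (d + 1) ^ 2) := Finset.card_biUnion_le_card_mul _ _ _ hB
        _ ≤ ((M₀ + 1) * (d + 1) ^ 2) ^ (Nat.log 2 (m / 2) + 1) * ((M₀ + 1) * (d + 1) ^ 2) := by
            apply Nat.mul_le_mul hIH
            apply Nat.mul_le_mul_right
            omega
        _ = ((M₀ + 1) * (d + 1) ^ 2) ^ (Nat.log 2 m + 1) := by
            rw [hlog, pow_succ _ (Nat.log 2 (m / 2) + 1)]

open Classical in
/-- K6: doubling. -/
theorem doubling {A A₂ : Finset M} (hA : A ⊆ A₂) (E : M → M → Prop) (hsymm : ∀ x y, E x y → E y x) {d M₀ : ℕ}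
    (hd : ∀ x, (Finset.univ.filter (fun z => E x z)).card ≤ d)
    (hinv : ∀ g, St c A g → ∀ x z, E x z → E (g x) (g z))
    (hball : ∀ z ρ, (∀ y ∈ Ball E z ρ, y ∉ A₂) → (Ball E z ρ).card ≤ M₀) {x : M}
    (hx : ∃ a ∈ A₂, a ∈ Cmp E x) :
    (Orb c A₂ x).card ≤ ((M₀ + 1) * (d + 1) ^ 2) ^ (Nat.log 2 M₀ + 1) := by
  have hpos : 1 ≤ (M₀ + 1) * (d + 1) ^ 2 := Nat.succ_le_of_lt (by positivity)
  have hex : ∃ m, Near14 E A₂ x m := by
    obtain ⟨a, ha, h⟩ := hx
    exact ⟨_, a, ha, mem_Cmp.1 h, le_refl _⟩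
  have hm := Nat.find_spec hex
  set m := Nat.find hex with hmdef
  rcases Nat.eq_zero_or_pos m with h0 | h0
  · rw [h0] at hm
    obtain ⟨a, ha, hr, hle⟩ := hm
    have hxa : x = a := (hr.dist_eq_zero_iff).1 (by omega)
    subst hxa
    rw [Orb_of_mem ha, Finset.card_singleton]
    exact Nat.one_le_pow _ _ hpos
  · have hm' : ¬ Near14 E A₂ x (m - 1) := Nat.find_min hex (by omega)
    have h1 := Orb_le14 hA E hsymm hd hinv hball m h0 x hm hm'
    refine h1.trans (Nat.pow_le_pow_right hpos ?_)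
    have h2 : m ≤ M₀ := by
      obtain ⟨a, ha, hr, hle⟩ := hm
      have h3 : (Ball E x (m - 1)).card ≤ M₀ := by
        apply hball
        intro z hz hz2
        obtain ⟨hz1, hz3⟩ := mem_Ball.1 hz
        exact hm' ⟨z, hz2, hz1, hz3⟩
      have hd1 : (Gr E).dist x a = m := by
        by_contra h
        exact hm' ⟨a, ha, hr, by omega⟩
      have h4 : Finset.range m ⊆ (Ball E x (m - 1)).image (fun z => (Gr E).dist x z) := by
        intro k hk
        rw [Finset.mem_range] at hk
        obtain ⟨y, hy1, hy2, _, _⟩ := geo14 hr (k := k) (by omega)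
        rw [Finset.mem_image]
        exact ⟨y, mem_Ball.2 ⟨hy1, by omega⟩, hy2⟩
      have h5 := (Finset.card_le_card h4).trans Finset.card_image_le
      rw [Finset.card_range] at h5
      omega
    have := Nat.log_mono_right (b := 2) h2
    omega

end Pool.Agent.Helper12.EK
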